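import Pool.Agent.Y451.AM.Stm
import Pool.Agent.Y168.FM.New

/-!
# The next stage: gluing of tiles
-/

set_option autoImplicit false

open MeasureTheory

noncomputable section

namespace Pool.Agent.Y442.AM

open Pool.Agent.Y451.AM
open Pool.Agent.Y168.FM (sel sel_mem sel_not sel_meas)
open scoped Classical

section
variable {Γ : Type} [Group Γ]

theorem sh_sh {A : Type} (g h : Γ) (w : Γ → A) : sh g (sh h w) = sh (g * h) w := by
  funext u
  simp only [sh, mul_assoc]

/-- extension of a pattern by `d` -/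
def ext {k : ℕ} {t : Finset Γ} (d : Fin k) (π : {v : Γ // v ∈ t} → Fin k) : Γ → Fin k := fun v =>
  if h : v ∈ t then π ⟨v, h⟩ else d

omit [Group Γ] in
theorem ext_rs {k : ℕ} {t : Finset Γ} (d : Fin k) (ω : Γ → Fin k) {v : Γ} (hv : v ∈ t) :
    ext (t := t) d (fun u => ω u.1) v = ω v := by
  rw [ext, dif_pos hv]

/-- the window of the new rules -/
def twin (t K : Finset Γ) : Finset Γ :=
  t ∪ (t ×ˢ K ×ˢ K).image fun q => q.1 * q.2.1 * q.2.2⁻¹

theorem twin_l {t K : Finset Γ} {s : Γ} (hs : s ∈ t) : s ∈ twin t K :=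
  Finset.mem_union_left _ hs

theorem twin_r {t K : Finset Γ} {s u v : Γ} (hs : s ∈ t) (hu : u ∈ K) (hv : v ∈ K) :
    s * u * v⁻¹ ∈ twin t K := by
  apply Finset.mem_union_right
  rw [Finset.mem_image]
  exact ⟨(s, u, v), Finset.mem_product.2 ⟨hs, Finset.mem_product.2 ⟨hu, hv⟩⟩, rfl⟩

end

theorem new : S_NEW := by
  intro Γ _ _ k W Pr hPr X _ _ a ha S K d p hp Q Φ hΦ
  obtain ⟨A, hAdef⟩ : ∃ A : Γ → Set X, A = fun v => {x | p x = some v} := ⟨_, rfl⟩
  have hA : ∀ (v : Γ) (x : X), x ∈ A v ↔ p x = some v := by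
    intro v x
    rw [hAdef]
    rfl
  have hAm : ∀ v, MeasurableSet (A v) := by
    intro v
    rw [hAdef]
    exact hp.meas _
  have hu : ∀ x i j, x ∈ A i → x ∈ A j → i = j := by
    intro x i j hi hj
    rw [hA] at hi hj
    rw [hi] at hj
    exact Option.some.inj hj
  -- the type and the shape
  have htym : ∀ z : Γ, Measurable fun x => tyX S K (a z x) := by
    intro z
    apply Measurable.prodMk
    · exact measurable_pi_iff.2 fun v => S.mR.comp ((ha.meas _).comp (ha.meas _))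
    · exact measurable_pi_iff.2 fun v => S.mψ.comp ((ha.meas _).comp (ha.meas _))
  have hG : ∀ (G : Finset Γ → Ty Γ k S.t K → Fin k) (z : Γ),
      Measurable fun x => G (shp a K p (a z x)) (tyX S K (a z x)) := by
    intro G z
    let _ : MeasurableSpace (Option Γ) := ⊤
    have : DiscreteMeasurableSpace (Option Γ) := ⟨fun _ => trivial⟩
    have hpm : Measurable p := measurable_to_countable' fun o => hp.meas o
    have h1 : Measurable fun x => (fun u : {u : Γ // u ∈ K} => p (a u.1 (a z x))) :=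
      measurable_pi_iff.2 fun u => hpm.comp ((ha.meas _).comp (ha.meas _))
    have h2 : Measurable fun x =>
        ((fun u : {u : Γ // u ∈ K} => p (a u.1 (a z x))), tyX S K (a z x)) :=
      h1.prodMk (htym z)
    have h3 : ∀ x, shp a K p (a z x) =
        K.filter fun u => ∃ h : u ∈ K, (fun u : {u : Γ // u ∈ K} => p (a u.1 (a z x))) ⟨u, h⟩ =
          some u := by
      intro x
      apply Finset.filter_congr
      intro u hu
      exact ⟨fun h => ⟨hu, h⟩, fun ⟨_, h⟩ => h⟩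
    have h4 : (fun x => G (shp a K p (a z x)) (tyX S K (a z x))) =
        (fun q : ({u : Γ // u ∈ K} → Option Γ) × Ty Γ k S.t K =>
          G (K.filter fun u => ∃ h : u ∈ K, q.1 ⟨u, h⟩ = some u) q.2) ∘ fun x =>
        ((fun u : {u : Γ // u ∈ K} => p (a u.1 (a z x))), tyX S K (a z x)) := by
      funext x
      rw [h3]
      rfl
    rw [h4]
    exact (measurable_of_countable _).comp h2
  obtain ⟨t', ht'⟩ : ∃ t', t' = twin S.t K := ⟨_, rfl⟩
  -- the rule
  obtain ⟨RN, hRN⟩ : ∃ RN : Γ → X → Rule Γ k t', RN = fun v x π =>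
    Φ (shp a K p (a v⁻¹ x)) (tyX S K (a v⁻¹ x))
      (tb (TT d (tyX S K (a v⁻¹ x))) (sh v⁻¹ (ext d π))) v := ⟨_, rfl⟩
  obtain ⟨R0, hR0⟩ : ∃ R0 : X → Rule Γ k t', R0 = fun x π => ev (S.R x) (ext d π) := ⟨_, rfl⟩
  have hRNm : ∀ v, Measurable (RN v) := by
    intro v
    rw [hRN]
    refine measurable_pi_iff.2 fun π => ?_
    exact hG (fun s τ => Φ s τ (tb (TT d τ) (sh v⁻¹ (ext d π))) v) v⁻¹
  have hR0m : Measurable R0 := by
    rw [hR0]
    refine measurable_pi_iff.2 fun π => ?_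
    exact (measurable_pi_apply _).comp S.mR
  obtain ⟨R', hR'⟩ : ∃ R' : X → Rule Γ k t', R' = sel A RN R0 := ⟨_, rfl⟩
  obtain ⟨ψ', hψ'⟩ : ∃ ψ' : X → Fin k,
    ψ' = sel A (fun v x => Q (shp a K p (a v⁻¹ x)) (tyX S K (a v⁻¹ x)) v) S.ψ := ⟨_, rfl⟩
  have hR'm : Measurable R' := by
    rw [hR']
    exact sel_meas hu hAm hRNm hR0m
  have hψ'm : Measurable ψ' := by
    rw [hψ']
    exact sel_meas hu hAm (fun v => hG (fun s τ => Q s τ v) v⁻¹) S.mψ
  -- the formulas
  have hf1 : ∀ (x : X) (v : Γ), p x = some v → ∀ ω : Γ → Fin k,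
      ev (R' x) ω = Φ (shp a K p (a v⁻¹ x)) (tyX S K (a v⁻¹ x))
        (tb (TT d (tyX S K (a v⁻¹ x))) (sh v⁻¹ ω)) v := by
    intro x v hv ω
    have h1 : R' x = RN v x := by
      rw [hR', sel_mem hu RN R0 ((hA _ _).2 hv)]
    rw [ev, h1, hRN]
    refine congrFun ((hΦ (a v⁻¹ x)).1 _ _ fun u hu1 => ?_) v
    have hu2 : u ∈ K := (Finset.mem_filter.1 (Finset.mem_filter.1 hu1).1).1
    simp only [tb, ev, sh]
    congr 1
    funext s
    apply ext_rs
    rw [ht']
    exact twin_r s.2 hu2 (hp.mem _ _ hv)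
  have hf2 : ∀ x : X, p x = none → ∀ ω : Γ → Fin k, ev (R' x) ω = ev (S.R x) ω := by
    intro x hx ω
    have h1 : R' x = R0 x := by
      rw [hR', sel_not RN R0]
      intro v hv
      rw [hA, hx] at hv
      exact absurd hv (by simp)
    rw [ev, h1, hR0]
    simp only [ev]
    congr 1
    funext s
    apply ext_rs
    rw [ht']
    exact twin_l s.2
  -- validity
  have hval : ∀ x ω, Sol Pr ω → Sol Pr (fun u => ev (R' (a u x)) (sh u ω)) := by
    intro x ω hω
    obtain ⟨τ, hτ⟩ : ∃ τ : Γ → Fin k, τ = fun u => ev (S.R (a u x)) (sh u ω) := ⟨_, rfl⟩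
    have hτS : Sol Pr τ := by
      rw [hτ]
      exact S.val x ω hω
    obtain ⟨τ', hτ'⟩ : ∃ τ' : Γ → Fin k, τ' = fun u => ev (R' (a u x)) (sh u ω) := ⟨_, rfl⟩
    rw [← hτ']
    obtain ⟨V, hV⟩ : ∃ V : Γ → Γ → Fin k,
      V = fun z => tb (TT d (tyX S K (a z x))) (sh z ω) := ⟨_, rfl⟩
    have hVτ : ∀ z, ∀ v ∈ K, V z v = τ (v * z) := by
      intro z v hv
      rw [hV, hτ]
      simp only [tb]
      rw [sh_sh, TT, dif_pos hv, ha.mul]
      rfl
    have hτ1 : ∀ (u : Γ) (v : Γ), p (a u x) = some v →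
        τ' u = Φ (shp a K p (a (v⁻¹ * u) x)) (tyX S K (a (v⁻¹ * u) x)) (V (v⁻¹ * u)) v := by
      intro u v hx
      have h1 : τ' u = ev (R' (a u x)) (sh u ω) := by rw [hτ']
      have h2 : a v⁻¹ (a u x) = a (v⁻¹ * u) x := by
        rw [← ha.mul]
      have h3 : sh v⁻¹ (sh u ω) = sh (v⁻¹ * u) ω := by
        rw [sh_sh]
      rw [h1, hf1 _ _ hx]
      rw [h2, h3, hV]
    have hfill : ∀ z, (∀ v ∈ bd (dif W) (shp a K p (a z x)),
          Φ (shp a K p (a z x)) (tyX S K (a z x)) (V z) v = τ (v * z)) ∧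
        ∀ g, win W (shp a K p (a z x)) g →
          Pr (sh g (Φ (shp a K p (a z x)) (tyX S K (a z x)) (V z))) := by
      intro z
      have h1 : ∀ g, win W (shp a K p (a z x)) g → Pr (sh g (V z)) := by
        intro g hg
        refine hPr (sh (g * z) τ) _ (fun v hv => ?_) (hτS _)
        simp only [sh]
        rw [hVτ z _ (Finset.mem_filter.1 (hg v hv)).1, mul_assoc]
      obtain ⟨h2, h3⟩ := (hΦ (a z x)).2 (V z) h1
      refine ⟨fun v hv => ?_, h3⟩
      rw [h2 v hv, hVτ z v (Finset.mem_filter.1 (Finset.mem_filter.1 hv).1).1]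
    intro g
    by_cases hcase : ∃ u0 ∈ W, ∃ v : Γ, p (a (u0 * g) x) = some v ∧
        v ∉ bd (dif W) (shp a K p (a (v⁻¹ * (u0 * g)) x))
    · obtain ⟨u0, hu0, v, hx, hv⟩ := hcase
      obtain ⟨z, hz⟩ : ∃ z, z = v⁻¹ * (u0 * g) := ⟨_, rfl⟩
      rw [← hz] at hv
      have hvA : v ∈ shp a K p (a z x) := by
        refine Finset.mem_filter.2 ⟨hp.mem _ _ hx, ?_⟩
        rw [← ha.mul, hz, mul_inv_cancel_left]
        exact hx
      have hin : win W (shp a K p (a z x)) (g * z⁻¹) := by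
        intro u1 hu1
        have h1 : u1 * (g * z⁻¹) = (u1 * u0⁻¹) * v := by
          rw [hz]
          group
        rw [h1]
        by_contra h2
        refine hv (Finset.mem_filter.2 ⟨hvA, u1 * u0⁻¹, ?_, h2⟩)
        exact Finset.mem_image.2 ⟨(u1, u0), Finset.mem_product.2 ⟨hu1, hu0⟩, rfl⟩
      refine hPr (sh (g * z⁻¹) (Φ (shp a K p (a z x)) (tyX S K (a z x)) (V z))) _
        (fun u1 hu1 => ?_) ((hfill z).2 (g * z⁻¹) hin)
      simp only [sh]
      have h2 : p (a (u1 * g) x) = some (u1 * (g * z⁻¹)) := by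
        have h3 := (Finset.mem_filter.1 (hin u1 hu1)).2
        rw [← ha.mul] at h3
        rw [← h3]
        congr 2
        group
      rw [hτ1 _ _ h2]
      have h3 : (u1 * (g * z⁻¹))⁻¹ * (u1 * g) = z := by group
      rw [h3]
    · refine hPr (sh g τ) _ (fun u1 hu1 => ?_) (hτS g)
      simp only [sh]
      cases hx : p (a (u1 * g) x) with
      | some v =>
        have h1 : v ∈ bd (dif W) (shp a K p (a (v⁻¹ * (u1 * g)) x)) := by
          by_contra h
          exact hcase ⟨u1, hu1, v, hx, h⟩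
        rw [hτ1 (u1 * g) v hx, (hfill _).1 v h1, mul_inv_cancel_left]
      | none =>
        have h1 : τ' (u1 * g) = ev (R' (a (u1 * g) x)) (sh (u1 * g) ω) := by rw [hτ']
        rw [h1, hf2 _ hx, hτ]
  refine ⟨⟨t', R', ψ', hR'm, hψ'm, hval⟩, ?_, ?_⟩
  · intro x v hv
    refine ⟨fun ω => hf1 x v hv ω, ?_⟩
    show ψ' x = _
    rw [hψ', sel_mem hu _ _ ((hA _ _).2 hv)]
  · intro x hx
    refine ⟨fun ω => hf2 x hx ω, ?_⟩
    show ψ' x = _
    rw [hψ', sel_not]
    intro v hv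
    rw [hA, hx] at hv
    exact absurd hv (by simp)

end Pool.Agent.Y442.AM

end
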